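import Pool.Agent.K1H30.ES.Stm

set_option autoImplicit false

namespace Pool.Agent.K1H99.ES

open Pool.Agent.K1H30.ES Polynomial

/-- parity -/
theorem parity {K : Type*} [Field K] (a b f : K[X]) (hf : Odd f.natDegree)
    (h : a ^ 2 = b ^ 2 * f) : a = 0 ∧ b = 0 := by
  by_cases hb : b = 0
  · subst hb
    rw [zero_pow two_ne_zero, zero_mul] at h
    exact ⟨pow_eq_zero_iff two_ne_zero |>.1 h, rfl⟩
  · exfalso
    have hf0 : f ≠ 0 := by
      rintro rfl
      simp at hf
    have h1 := congrArg natDegree h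
    rw [natDegree_pow, natDegree_mul (pow_ne_zero 2 hb) hf0, natDegree_pow] at h1
    obtain ⟨k, hk⟩ := hf
    omega

section

variable {K : Type} [Field K]

/-- polynomials in `x` and `z` -/
noncomputable def Psi : K[X][X] →+* P3 K :=
  eval₂RingHom (eval₂RingHom (MvPolynomial.C : K →+* P3 K) (MvPolynomial.X 0)) (MvPolynomial.X 2)

theorem normal {A B a : ℕ} {e : ℤ} {F : P3 K} (hF : F ∈ Cls K A B a e) :
    ∃ p q : K[X][X], F = Psi p + Psi q * MvPolynomial.X 1 := by
  induction hF using Submodule.span_induction with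
  | mem F hF =>
    obtain ⟨m, hm, rfl⟩ := hF
    obtain ⟨i, ε, j⟩ := m
    have h1 : ε ≤ 1 := hm.1
    have key : Psi (C (X ^ i) * X ^ j : K[X][X]) =
        MvPolynomial.X 0 ^ i * MvPolynomial.X 2 ^ j := by
      have h0 : Psi (C X : K[X][X]) = MvPolynomial.X 0 := by simp [Psi]
      have h2 : Psi (X : K[X][X]) = MvPolynomial.X 2 := by simp [Psi]
      rw [map_mul, C_pow, map_pow, map_pow, h0, h2]
    interval_cases ε
    · refine ⟨C (X ^ i) * X ^ j, 0, ?_⟩
      rw [key, map_zero, zero_mul, add_zero]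
      simp [mn]
    · refine ⟨0, C (X ^ i) * X ^ j, ?_⟩
      rw [key, map_zero, zero_add]
      simp only [mn, pow_one]
      ring
  | zero => exact ⟨0, 0, by simp⟩
  | add F G _ _ hF hG =>
    obtain ⟨p, q, rfl⟩ := hF
    obtain ⟨p', q', rfl⟩ := hG
    exact ⟨p + p', q + q', by rw [map_add, map_add]; ring⟩
  | smul c F _ hF =>
    obtain ⟨p, q, rfl⟩ := hF
    refine ⟨C (C c) * p, C (C c) * q, ?_⟩
    have : Psi (C (C c) : K[X][X]) = MvPolynomial.C c := by simp [Psi]
    rw [map_mul, map_mul, this, MvPolynomial.smul_eq_C_mul]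
    ring

variable {Om : Type} [Field Om] [Algebra K Om]

/-- restriction to the generic fibre of the curve -/
noncomputable def Phi (x η : Om) : P3 K →ₐ[K] Om[X] := MvPolynomial.aeval ![C x, C η, X]

theorem Phi_Psi (x η : Om) (p : K[X][X]) :
    Phi x η (Psi p) = p.map (aeval x : K[X] →ₐ[K] Om).toRingHom := by
  have : ((Phi x η : P3 K →ₐ[K] Om[X]).toRingHom.comp Psi) =
      mapRingHom (aeval x : K[X] →ₐ[K] Om).toRingHom := by
    refine Polynomial.ringHom_ext ?_ ?_
    · intro r
      have h2 : ((Phi x η : P3 K →ₐ[K] Om[X]).toRingHom.comp Psi).comp (C : K[X] →+* K[X][X]) =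
          (mapRingHom (aeval x : K[X] →ₐ[K] Om).toRingHom).comp (C : K[X] →+* K[X][X]) := by
        refine Polynomial.ringHom_ext ?_ ?_
        · intro c
          simp [Psi, Phi]
        · simp [Psi, Phi]
      exact congrArg (fun g => g r) h2
    · simp [Psi, Phi]
  exact congrArg (fun g => g p) this

theorem claim {x η t' : Om} {t : K} (ht : t' = algebraMap K Om t)
    (hx : Function.Injective (aeval x : K[X] →ₐ[K] Om))
    (hη : η ^ 2 = (1 + x) * (x ^ 2 - t')) {A B a : ℕ} {e : ℤ} {F : P3 K}
    (hF : F ∈ Cls K A B a e) (h : Phi x η F = 0) : F = 0 := by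
  obtain ⟨p, q, rfl⟩ := normal hF
  rw [map_add, map_mul, Phi_Psi, Phi_Psi] at h
  have hX1 : Phi x η (MvPolynomial.X 1 : P3 K) = C η := by simp [Phi]
  rw [hX1] at h
  have key : ∀ j, p.coeff j = 0 ∧ q.coeff j = 0 := by
    intro j
    have h1 := congrArg (fun r => coeff r j) h
    simp only [coeff_add, coeff_mul_C, coeff_map, coeff_zero] at h1
    have h1' : aeval x (p.coeff j) + aeval x (q.coeff j) * η = 0 := h1
    set f : K[X] := (1 + X) * (X ^ 2 - C t) with hf
    have hfx : aeval x f = η ^ 2 := by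
      rw [hη, hf, ht]
      simp
    have h2 : (p.coeff j) ^ 2 = (q.coeff j) ^ 2 * f := by
      apply hx
      rw [map_pow, map_mul, map_pow, hfx, eq_neg_of_add_eq_zero_left h1']
      ring
    refine parity _ _ f ?_ h2
    have : f.natDegree = 3 := by
      rw [hf]
      have e1 : (1 + X : K[X]).natDegree = 1 := by
        rw [add_comm]
        exact natDegree_X_add_C (1 : K)
      have e2 : (X ^ 2 - C t : K[X]).natDegree = 2 := natDegree_X_pow_sub_C
      have e3 : (1 + X : K[X]) ≠ 0 := by
        intro h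
        rw [h] at e1
        simp at e1
      have e4 : (X ^ 2 - C t : K[X]) ≠ 0 := by
        intro h
        rw [h] at e2
        simp at e2
      rw [natDegree_mul e3 e4, e1, e2]
    rw [this]
    decide
  have hp : p = 0 := by
    ext1 j
    rw [(key j).1, coeff_zero]
  have hq : q = 0 := by
    ext1 j
    rw [(key j).2, coeff_zero]
  rw [hp, hq, map_zero, zero_mul, add_zero]

end

/-- **Piece DOM.** -/
theorem t_DOM : S_DOM := by
  intro K _ t A B a a' e e' F G Q hF hG hF0 h
  let Om := AlgebraicClosure (RatFunc K)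
  let x : Om := algebraMap (RatFunc K) Om RatFunc.X
  have hx : Function.Injective (aeval x : K[X] →ₐ[K] Om) := by
    have : ∀ p : K[X], aeval x p = algebraMap (RatFunc K) Om (algebraMap K[X] (RatFunc K) p) := by
      intro p
      have h1 : aeval x p = algebraMap (RatFunc K) Om (aeval (RatFunc.X : RatFunc K) p) := by
        rw [← aeval_algebraMap_apply]
      rw [h1, RatFunc.aeval_X_left_eq_algebraMap]
    intro p q hpq
    rw [this, this] at hpq
    exact RatFunc.algebraMap_injective K ((algebraMap (RatFunc K) Om).injective hpq)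
  obtain ⟨η, hη⟩ := IsAlgClosed.exists_pow_nat_eq ((1 + x) * (x ^ 2 - algebraMap K Om t)) two_pos
  have hC0 : Phi x η (hC t) = 0 := by
    have : Phi x η (hC t) = C (η ^ 2 - (1 + x) * (x ^ 2 - algebraMap K Om t)) := by
      simp only [Phi, hC, map_sub, map_pow, map_mul, map_add, map_one, MvPolynomial.aeval_X,
        MvPolynomial.algHom_C]
      simp
    rw [this, hη, sub_self, map_zero]
  have h1 : Phi x η F * Phi x η G = 0 := by
    rw [← map_mul, h, map_mul, hC0, zero_mul]
  rcases mul_eq_zero.1 h1 with h2 | h2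
  · exact absurd (claim rfl hx hη hF h2) hF0
  · exact claim rfl hx hη hG h2

end Pool.Agent.K1H99.ES
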